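import Mathlib

/-!
# The boundary independence number is at most the order minus the minimum degree
-/

set_option autoImplicit false

open Finset

namespace Pool.Agent.Results.MP_8bdd73_co.OrderMinusMinDegree

variable {V : Type*} [Fintype V]

/-- The eccentricity of `v` in its connected component: the largest distance from `v` to a vertex
of its component (`SimpleGraph.dist` is `0` between different components). -/
noncomputable def ecc (G : SimpleGraph V) (v : V) : ℕ := univ.sup fun u => G.dist v u

/-- `f` is a broadcast on `G`: `f v = 1` if `v` is the only vertex of its component, and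
`f v ≤ e(v)` otherwise (eccentricities are taken in the component, so that `f v` is also at most
the diameter of the component). -/
def IsBroadcast (G : SimpleGraph V) (f : V → ℕ) : Prop :=
  (∀ v, (∀ u, ¬ G.Adj v u) → f v = 1) ∧ (∀ v, (∃ u, G.Adj v u) → f v ≤ ecc G v)

/-- `x` belongs to `N_f(v)`: it lies in the component of `v`, at distance at most `f v`. -/
def Hears (G : SimpleGraph V) (f : V → ℕ) (x v : V) : Prop :=
  G.Reachable v x ∧ G.dist v x ≤ f v

/-- `f` is boundary independent: for distinct broadcasting vertices `u`, `v`, every vertex of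
`N_f(u) ∩ N_f(v)` belongs to `B_f(u) ∩ B_f(v)`, i.e. is at distance exactly `f u` from `u` and
exactly `f v` from `v`. -/
def BnIndependent (G : SimpleGraph V) (f : V → ℕ) : Prop :=
  ∀ u v, 0 < f u → 0 < f v → u ≠ v → ∀ x, Hears G f x u → Hears G f x v →
    G.dist u x = f u ∧ G.dist v x = f v

/-- The boundary independence number: the maximum weight of a boundary independent broadcast. -/
noncomputable def alphaBn (G : SimpleGraph V) : ℕ :=
  sSup {s | ∃ f : V → ℕ, IsBroadcast G f ∧ BnIndependent G f ∧ s = ∑ v, f v}

theorem exists_dist_eq (G : SimpleGraph V) (v u : V) (h : G.Reachable v u) (i : ℕ)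
    (hi : i ≤ G.dist v u) : ∃ w, G.Reachable v w ∧ G.dist v w = i := by
  obtain ⟨p, hp⟩ := h.exists_walk_length_eq_dist
  refine ⟨p.getVert i, ⟨p.take i⟩, ?_⟩
  have h1 : G.dist v (p.getVert i) ≤ i := by
    refine le_trans (SimpleGraph.dist_le (p.take i)) ?_
    rw [SimpleGraph.Walk.take_length]
    exact min_le_left _ _
  have h2 : G.dist (p.getVert i) u ≤ p.length - i := by
    refine le_trans (SimpleGraph.dist_le (p.drop i)) ?_
    rw [SimpleGraph.Walk.drop_length]
  have h3 : G.dist v u ≤ G.dist v (p.getVert i) + G.dist (p.getVert i) u := by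
    have r1 : G.Reachable v (p.getVert i) := ⟨p.take i⟩
    have r2 : G.Reachable (p.getVert i) u := ⟨p.drop i⟩
    obtain ⟨q1, hq1⟩ := r1.exists_walk_length_eq_dist
    obtain ⟨q2, hq2⟩ := r2.exists_walk_length_eq_dist
    rw [← hq1, ← hq2, ← SimpleGraph.Walk.length_append]
    exact SimpleGraph.dist_le _
  omega

theorem exists_ecc (G : SimpleGraph V) (v : V) :
    ∃ u, G.Reachable v u ∧ G.dist v u = ecc G v := by
  have hne : (univ : Finset V).Nonempty := ⟨v, mem_univ v⟩
  obtain ⟨u, -, hu⟩ := exists_mem_eq_sup univ hne (fun u => G.dist v u)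
  by_cases hr : G.Reachable v u
  · exact ⟨u, hr, hu.symm⟩
  · have h0 : G.dist v u = 0 := SimpleGraph.dist_eq_zero_of_not_reachable hr
    refine ⟨v, SimpleGraph.Reachable.refl v, ?_⟩
    rw [SimpleGraph.dist_self]
    unfold ecc
    rw [hu]
    exact h0.symm

/-- The open ball. -/
noncomputable def ob (G : SimpleGraph V) (f : V → ℕ) (v : V) : Finset V := by
  classical
  exact univ.filter fun x => G.Reachable v x ∧ G.dist v x < f v

theorem mem_ob (G : SimpleGraph V) (f : V → ℕ) (v x : V) :
    x ∈ ob G f v ↔ G.Reachable v x ∧ G.dist v x < f v := by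
  classical
  simp [ob]

omit [Fintype V] in
theorem dist_succ_le (G : SimpleGraph V) {v x y : V} (h : G.Reachable v x) (hxy : G.Adj x y) :
    G.dist v y ≤ G.dist v x + 1 := by
  obtain ⟨q, hq⟩ := h.exists_walk_length_eq_dist
  rw [← hq]
  refine le_trans (SimpleGraph.dist_le (q.concat hxy)) ?_
  rw [SimpleGraph.Walk.length_concat]

theorem ball_card [DecidableEq V] (G : SimpleGraph V) [DecidableRel G.Adj] (f : V → ℕ) (v : V)
    (h2 : 2 ≤ f v) (he : f v ≤ ecc G v) : G.degree v + f v ≤ (ob G f v).card + 1 := by
  classical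
  obtain ⟨u, hu, hue⟩ := exists_ecc G v
  have hw : ∀ i, ∃ w, i < f v → (G.Reachable v w ∧ G.dist v w = i) := by
    intro i
    by_cases hi : i < f v
    · obtain ⟨w, hw⟩ := exists_dist_eq G v u hu i (by omega)
      exact ⟨w, fun _ => hw⟩
    · exact ⟨v, fun h => absurd h hi⟩
  choose w hw using hw
  have hinj : Set.InjOn w ((range (f v)).erase 1 : Finset ℕ) := by
    intro i hi j hj hij
    have hi' := hw i (by simpa using (mem_erase.1 (mem_coe.1 hi)).2)
    have hj' := hw j (by simpa using (mem_erase.1 (mem_coe.1 hj)).2)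
    rw [← hi'.2, ← hj'.2, hij]
  have hc : (((range (f v)).erase 1).image w).card = f v - 1 := by
    rw [card_image_of_injOn hinj, card_erase_of_mem (by simp; omega), card_range]
  have hdisj : Disjoint (G.neighborFinset v) (((range (f v)).erase 1).image w) := by
    rw [disjoint_left]
    intro x hx hx2
    rw [SimpleGraph.mem_neighborFinset] at hx
    obtain ⟨i, hi, rfl⟩ := mem_image.1 hx2
    have hi1 := (mem_erase.1 hi).1
    have hi' := hw i (by simpa using (mem_erase.1 hi).2)
    have : G.dist v (w i) = 1 := SimpleGraph.dist_eq_one_iff_adj.2 hx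
    omega
  have hsub : (G.neighborFinset v) ∪ (((range (f v)).erase 1).image w) ⊆ ob G f v := by
    intro x hx
    rw [mem_ob]
    rcases mem_union.1 hx with hx | hx
    · rw [SimpleGraph.mem_neighborFinset] at hx
      refine ⟨hx.reachable, ?_⟩
      rw [SimpleGraph.dist_eq_one_iff_adj.2 hx]
      omega
    · obtain ⟨i, hi, rfl⟩ := mem_image.1 hx
      have hi2 : i < f v := by simpa using (mem_erase.1 hi).2
      have hi' := hw i hi2
      exact ⟨hi'.1, by omega⟩
  have := card_le_card hsub
  rw [card_union_of_disjoint hdisj, hc, SimpleGraph.card_neighborFinset_eq_degree] at this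
  omega

theorem main [DecidableEq V] (G : SimpleGraph V) [DecidableRel G.Adj] (f : V → ℕ)
    (hf : IsBroadcast G f) (hb : BnIndependent G f) :
    ∑ v, f v + G.minDegree ≤ Fintype.card V := by
  classical
  set P : Finset V := univ.filter fun v => 0 < f v with hP
  have hdisj : ∀ u ∈ P, ∀ v ∈ P, u ≠ v → Disjoint (ob G f u) (ob G f v) := by
    intro u hu v hv huv
    rw [disjoint_left]
    intro x hx hx'
    rw [mem_ob] at hx hx'
    have hu' : 0 < f u := (mem_filter.1 hu).2
    have hv' : 0 < f v := (mem_filter.1 hv).2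
    have := hb u v hu' hv' huv x ⟨hx.1, hx.2.le⟩ ⟨hx'.1, hx'.2.le⟩
    omega
  have hcard : ∑ v ∈ P, (ob G f v).card = (P.biUnion fun v => ob G f v).card :=
    (card_biUnion (fun u hu v hv huv => hdisj u hu v hv huv)).symm
  have hsum : ∑ v, f v = ∑ v ∈ P, f v := by
    symm
    apply sum_subset (subset_univ P)
    intro v _ hv
    rw [hP, mem_filter] at hv
    have : ¬ 0 < f v := fun h => hv ⟨mem_univ v, h⟩
    omega
  -- every ball is large enough
  have hball : ∀ v ∈ P, f v ≤ (ob G f v).card := by
    intro v hv
    have hv' : 0 < f v := (mem_filter.1 hv).2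
    have hself : v ∈ ob G f v := by
      rw [mem_ob]
      exact ⟨SimpleGraph.Reachable.refl v, by rw [SimpleGraph.dist_self]; exact hv'⟩
    by_cases h1 : f v = 1
    · rw [h1]
      exact card_pos.2 ⟨v, hself⟩
    · have hadj : ∃ u, G.Adj v u := by
        by_contra hcon
        push Not at hcon
        exact h1 (hf.1 v hcon)
      have he := hf.2 v hadj
      have := ball_card G f v (by omega) he
      have hd : 0 < G.degree v := by
        obtain ⟨u, hu⟩ := hadj
        rw [SimpleGraph.degree_pos_iff_exists_adj]
        exact ⟨u, hu⟩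
      omega
  by_cases hδ : G.minDegree = 0
  · rw [hδ, hsum, add_zero]
    calc ∑ v ∈ P, f v ≤ ∑ v ∈ P, (ob G f v).card := sum_le_sum hball
      _ = _ := hcard
      _ ≤ Fintype.card V := card_le_univ _
  have hδ' : 1 ≤ G.minDegree := Nat.one_le_iff_ne_zero.2 hδ
  have hadj : ∀ v, ∃ u, G.Adj v u := by
    intro v
    rw [← SimpleGraph.degree_pos_iff_exists_adj]
    exact lt_of_lt_of_le hδ' (G.minDegree_le_degree v)
  by_cases hPe : P = ∅
  · rw [hsum, hPe, sum_empty, zero_add]
    by_cases hV : IsEmpty V
    · have : G.minDegree = 0 := by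
        simp
      omega
    · rw [not_isEmpty_iff] at hV
      obtain ⟨v⟩ := hV
      exact le_trans (G.minDegree_le_degree v) (G.degree_lt_card_verts v).le
  -- there is a vertex outside of all open balls
  have hout : (P.biUnion fun v => ob G f v).card + 1 ≤ Fintype.card V := by
    rw [Nat.succ_le_iff, card_lt_iff_ne_univ]
    intro huniv
    obtain ⟨v, hv⟩ := nonempty_iff_ne_empty.2 hPe
    have hv' : 0 < f v := (mem_filter.1 hv).2
    have hcl : ∀ x y, x ∈ ob G f v → G.Adj x y → y ∈ ob G f v := by
      intro x y hx hxy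
      rw [mem_ob] at hx
      by_contra hy
      rw [mem_ob] at hy
      have hry : G.Reachable v y := hx.1.trans hxy.reachable
      have hd := dist_succ_le G hx.1 hxy
      have hyf : G.dist v y = f v := by
        have : ¬ G.dist v y < f v := fun h => hy ⟨hry, h⟩
        omega
      have hyu : y ∈ P.biUnion fun v => ob G f v := by rw [huniv]; exact mem_univ y
      obtain ⟨v', hv'P, hyv'⟩ := mem_biUnion.1 hyu
      rw [mem_ob] at hyv'
      have hne : v ≠ v' := by
        rintro rfl
        exact hy hyv'
      have := hb v v' hv' (mem_filter.1 hv'P).2 hne y ⟨hry, hyf.le⟩ ⟨hyv'.1, hyv'.2.le⟩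
      omega
    obtain ⟨u, hu, hue⟩ := exists_ecc G v
    have hwalk : ∀ (a b : V) (p : G.Walk a b), a ∈ ob G f v → b ∈ ob G f v := by
      intro a b p
      induction p with
      | nil => exact id
      | cons h p ih => intro ha; exact ih (hcl _ _ ha h)
    obtain ⟨p⟩ := hu
    have hmem := hwalk v u p (by
      rw [mem_ob]
      exact ⟨SimpleGraph.Reachable.refl v, by rw [SimpleGraph.dist_self]; exact hv'⟩)
    rw [mem_ob] at hmem
    have := hf.2 v (hadj v)
    omega
  by_cases hbig : ∃ v, 2 ≤ f v
  · obtain ⟨v, hv⟩ := hbig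
    have hvP : v ∈ P := by rw [hP, mem_filter]; exact ⟨mem_univ v, by omega⟩
    have hb1 := ball_card G f v hv (hf.2 v (hadj v))
    have hb2 := G.minDegree_le_degree v
    have h3 : ∑ v ∈ P, f v + (G.minDegree - 1) ≤ ∑ v ∈ P, (ob G f v).card := by
      rw [← add_sum_erase P f hvP, ← add_sum_erase P (fun v => (ob G f v).card) hvP]
      have := sum_le_sum (fun u (hu : u ∈ P.erase v) => hball u (mem_of_mem_erase hu))
      omega
    rw [hsum]
    omega
  · push Not at hbig
    have hP1 : ∑ v ∈ P, f v = P.card := by
      rw [card_eq_sum_ones]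
      apply sum_congr rfl
      intro v hv
      have := (mem_filter.1 hv).2
      have := hbig v
      omega
    obtain ⟨v, hv⟩ := nonempty_iff_ne_empty.2 hPe
    have hfv : f v = 1 := by
      have := (mem_filter.1 hv).2
      have := hbig v
      omega
    have hdis : Disjoint P (G.neighborFinset v) := by
      rw [disjoint_left]
      intro u hu huv
      rw [SimpleGraph.mem_neighborFinset] at huv
      have hu' := (mem_filter.1 hu).2
      have h1 : G.dist v u = 1 := SimpleGraph.dist_eq_one_iff_adj.2 huv
      have := hb u v hu' (by omega) (fun h => huv.ne h.symm) u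
        ⟨SimpleGraph.Reachable.refl u, by rw [SimpleGraph.dist_self]; omega⟩
        ⟨huv.reachable, by omega⟩
      rw [SimpleGraph.dist_self] at this
      omega
    have h4 : (P ∪ G.neighborFinset v).card ≤ Fintype.card V := card_le_univ _
    rw [card_union_of_disjoint hdis, SimpleGraph.card_neighborFinset_eq_degree] at h4
    have := G.minDegree_le_degree v
    rw [hsum, hP1]
    omega

/-- Every finite graph `G` on `n` vertices satisfies `α_bn(G) ≤ n - δ(G)`. -/
theorem result (V : Type*) [Fintype V] (G : SimpleGraph V) [DecidableRel G.Adj] :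
    alphaBn G + G.minDegree ≤ Fintype.card V := by
  classical
  unfold alphaBn
  have hm : ∀ s ∈ {s | ∃ f : V → ℕ, IsBroadcast G f ∧ BnIndependent G f ∧ s = ∑ v, f v},
      s ≤ Fintype.card V - G.minDegree := by
    rintro s ⟨f, hf, hb, rfl⟩
    have := main G f hf hb
    omega
  have hle : G.minDegree ≤ Fintype.card V := by
    by_cases hV : IsEmpty V
    · have : G.minDegree = 0 := by
        simp
      omega
    · rw [not_isEmpty_iff] at hV
      obtain ⟨v⟩ := hV
      exact le_trans (G.minDegree_le_degree v) (G.degree_lt_card_verts v).le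
  rcases Set.eq_empty_or_nonempty
    {s | ∃ f : V → ℕ, IsBroadcast G f ∧ BnIndependent G f ∧ s = ∑ v, f v} with he | hne
  · rw [he]
    simpa using hle
  · have := csSup_le hne hm
    omega

end Pool.Agent.Results.MP_8bdd73_co.OrderMinusMinDegree
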